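import Mathlib

namespace Pool.Agent.KSnev

/-- `Φ(n, a)`: the number of permutations `π` of the indices for which the elements
`a_{π(1)} + 1, …, a_{π(k)} + k` of `ℤ/n` are pairwise distinct (indices are `0, …, k-1` here, so the
`i`-th element is `a_{π(i)} + (i + 1)`). -/
noncomputable def Phi (n : ℕ) {k : ℕ} (a : Fin k → ZMod n) : ℕ :=
  Nat.card {π : Equiv.Perm (Fin k) //
    Function.Injective fun i : Fin k => a (π i) + (((i : ℕ) + 1 : ℕ) : ZMod n)}

/-- `N(n, k)`, the minimum of `Φ(n, a)` over all `a ∈ (ℤ/n)^k`. -/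
noncomputable def N (n k : ℕ) : ℕ := sInf (Set.range fun a : Fin k → ZMod n => Phi n a)

end Pool.Agent.KSnev
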