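import Mathlib
import Pool.Agent.KSnev.Defs

namespace Pool.Agent.KSnev

/-- the integer version -/
noncomputable def Psi {k : ℕ} (v : Fin k → ℕ) : ℕ :=
  Nat.card {π : Equiv.Perm (Fin k) // Function.Injective fun i : Fin k => v (π i) + ((i : ℕ) + 1)}

lemma N_le (n : ℕ) {k : ℕ} (a : Fin k → ZMod n) : N n k ≤ Phi n a := Nat.sInf_le ⟨a, rfl⟩

lemma exists_min (n k : ℕ) : ∃ a : Fin k → ZMod n, Phi n a = N n k :=
  Nat.sInf_mem (Set.range_nonempty _)

lemma cast_inj {n x y : ℕ} (hx : 1 ≤ x) (hx' : x ≤ n) (hy : 1 ≤ y) (hy' : y ≤ n)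
    (h : (x : ZMod n) = y) : x = y := by
  rw [ZMod.natCast_eq_natCast_iff] at h
  rcases Nat.lt_trichotomy x y with hlt | heq | hgt
  · have h1 := (Nat.modEq_iff_dvd' hlt.le).mp h
    have := Nat.le_of_dvd (by omega) h1
    omega
  · exact heq
  · have h1 := (Nat.modEq_iff_dvd' hgt.le).mp h.symm
    have := Nat.le_of_dvd (by omega) h1
    omega

/-- rectified vectors -/
lemma Phi_cast (n : ℕ) {k : ℕ} (v : Fin k → ℕ) (hv : ∀ x, v x + k ≤ n) :
    Phi n (fun x => ((v x : ℕ) : ZMod n)) = Psi v := by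
  unfold Phi Psi
  congr 1
  congr 1
  funext π
  apply propext
  constructor
  · intro h i j hij
    apply h
    simp only at hij ⊢
    rw [← Nat.cast_add, ← Nat.cast_add, hij]
  · intro h i j hij
    apply h
    simp only at hij ⊢
    rw [← Nat.cast_add, ← Nat.cast_add] at hij
    have h1 := hv (π i)
    have h2 := hv (π j)
    have h3 := i.2
    have h4 := j.2
    exact cast_inj (by omega) (by omega) (by omega) (by omega) hij

lemma Phi_translate (n : ℕ) {k : ℕ} (a : Fin k → ZMod n) (c : ZMod n) :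
    Phi n (fun x => a x - c) = Phi n a := by
  unfold Phi
  congr 1
  congr 1
  funext π
  apply propext
  constructor
  · intro h i j hij
    apply h
    simp only at hij ⊢
    linear_combination hij
  · intro h i j hij
    apply h
    simp only at hij ⊢
    linear_combination hij

/-- integer collisions are collisions modulo `n` -/
lemma Phi_le (n : ℕ) {k : ℕ} (v : Fin k → ℕ) :
    Phi n (fun x => ((v x : ℕ) : ZMod n)) ≤ Psi v := by
  unfold Phi Psi
  refine Nat.card_le_card_of_injective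
    (fun π => ⟨π.1, fun i j hij => π.2 ?_⟩) fun π ρ h => ?_
  · simp only at hij ⊢
    rw [← Nat.cast_add, ← Nat.cast_add, hij]
  · simp only [Subtype.mk.injEq] at h
    exact Subtype.ext h

/-- a long gap allows to rectify -/
lemma rectify {M k : ℕ} (hM : k * (k - 1) < M) (a : Fin k → ZMod M) :
    ∃ v : Fin k → ℕ, (∀ x, v x + k ≤ M) ∧ Phi M a = Psi v := by
  classical
  have : NeZero M := ⟨by omega⟩
  -- a point `p` which is not of the form `a x + i` with `1 ≤ i ≤ k - 1`
  obtain ⟨p, hp⟩ : ∃ p : ZMod M, ∀ (x : Fin k) (i : Fin (k - 1)),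
      a x + (((i : ℕ) + 1 : ℕ) : ZMod M) ≠ p := by
    by_contra hcon
    push Not at hcon
    have hsurj : Function.Surjective
        (fun q : Fin k × Fin (k - 1) => a q.1 + (((q.2 : ℕ) + 1 : ℕ) : ZMod M)) := by
      intro p
      obtain ⟨x, i, h⟩ := hcon p
      exact ⟨(x, i), h⟩
    have := Fintype.card_le_of_surjective _ hsurj
    rw [ZMod.card, Fintype.card_prod, Fintype.card_fin, Fintype.card_fin] at this
    omega
  have hv : ∀ x, (a x - p).val + k ≤ M := by
    intro x
    have h1 := ZMod.val_lt (a x - p)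
    by_contra h2
    have h3 : M - (a x - p).val - 1 < k - 1 := by omega
    refine hp x ⟨M - (a x - p).val - 1, h3⟩ ?_
    have h4 : (((M - (a x - p).val - 1 : ℕ) + 1 : ℕ) : ZMod M) = ((M - (a x - p).val : ℕ) : ZMod M) := by
      congr 1
      omega
    simp only
    rw [h4, Nat.cast_sub h1.le, ZMod.natCast_self, ZMod.natCast_zmod_val]
    ring
  refine ⟨fun x => (a x - p).val, hv, ?_⟩
  rw [← Phi_translate M a p, ← Phi_cast M _ hv]
  congr 1
  funext x
  exact (ZMod.natCast_zmod_val (a x - p)).symm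

theorem mono_large {n k : ℕ} (h : k * (k - 1) ≤ n) : N n k ≤ N (n + 1) k := by
  obtain ⟨a, ha⟩ := exists_min (n + 1) k
  obtain ⟨v, hv, hPhi⟩ := rectify (M := n + 1) (by omega) a
  rw [← ha, hPhi]
  exact (N_le n _).trans (Phi_le n v)

theorem anti_large {n k : ℕ} (h : k * (k - 1) < n) : N (n + 1) k ≤ N n k := by
  obtain ⟨a, ha⟩ := exists_min n k
  obtain ⟨v, hv, hPhi⟩ := rectify h a
  rw [← ha, hPhi]
  exact (N_le (n + 1) _).trans (Phi_le (n + 1) v)

theorem small {n k : ℕ} (hn : 1 ≤ n) (h : n < k) : N n k = 0 := by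
  have : NeZero n := ⟨by omega⟩
  have h1 : Phi n (fun _ : Fin k => (0 : ZMod n)) = 0 := by
    unfold Phi
    rw [Nat.card_eq_zero]
    left
    constructor
    rintro ⟨π, hπ⟩
    have := Fintype.card_le_of_injective _ hπ
    rw [Fintype.card_fin, ZMod.card] at this
    omega
  have := N_le n (fun _ : Fin k => (0 : ZMod n))
  omega

end Pool.Agent.KSnev
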